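import Pool.Agent.H10.EO.One
import Pool.Agent.H10.EO.Two

/-!
# The order of the admissible error in the half-set condition of Erdos
-/

set_option autoImplicit false

namespace Pool.Agent.Results.MP_0a407b_co.ErrorOrder

/-- (1) For all `k ≥ 2` and `0 < α < 1` there are `a, b > 0` such that for every `c > 0` and all large
`n` a graph on `n` vertices with `⌊cn²⌋` edges in which every set of `⌊αn⌋` vertices spans at
least `(1 - a c^(k-2)) α² c n²` edges has at least `b c^(k choose 2) n^k` cliques with `k` vertices.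
(2) For `k = 3` the order of the error is best possible: for all `0 < c ≤ 1/1024` and all large `n`
there is a triangle-free graph on `n` vertices with `⌊cn²⌋` edges in which every set `W` of
vertices spans at least `c |W|² - 1024 c² n²` edges. -/
theorem result :
    (∀ k : ℕ, 2 ≤ k → ∀ α : ℝ, 0 < α → α < 1 → ∃ a b : ℝ, 0 < a ∧ 0 < b ∧
      ∀ c : ℝ, 0 < c → ∃ N : ℕ, ∀ n : ℕ, N ≤ n → ∀ G : SimpleGraph (Fin n),
        G.edgeSet.ncard = ⌊c * (n : ℝ) ^ 2⌋₊ →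
        (∀ W : Finset (Fin n), W.card = ⌊α * (n : ℝ)⌋₊ →
          (1 - a * c ^ (k - 2)) * (α ^ 2 * c * (n : ℝ) ^ 2) ≤
            (({e : Sym2 (Fin n) | e ∈ G.edgeSet ∧ ∀ v ∈ e, v ∈ W}).ncard : ℝ)) →
        b * c ^ (k.choose 2) * (n : ℝ) ^ k ≤
          (({s : Finset (Fin n) | G.IsNClique k s}).ncard : ℝ)) ∧
    (∀ c : ℝ, 0 < c → c ≤ 1 / 1024 → ∃ N : ℕ, ∀ n : ℕ, N ≤ n → ∃ G : SimpleGraph (Fin n),
      G.CliqueFree 3 ∧ G.edgeSet.ncard = ⌊c * (n : ℝ) ^ 2⌋₊ ∧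
      ∀ W : Finset (Fin n), c * (W.card : ℝ) ^ 2 - 1024 * c ^ 2 * (n : ℝ) ^ 2 ≤
        (({e : Sym2 (Fin n) | e ∈ G.edgeSet ∧ ∀ v ∈ e, v ∈ W}).ncard : ℝ)) :=
  ⟨fun k hk α hα0 hα1 => Pool.Agent.H10.EO.half_one k hk α hα0 hα1, Pool.Agent.H10.EO.half_two⟩

end Pool.Agent.Results.MP_0a407b_co.ErrorOrder
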