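import Pool.Agent.H1.UH.Fin

/-!
# The sharp number of `k`-cliques in graphs whose `⌊αn⌋`-sets are uniformly dense, with stability
-/

set_option autoImplicit false

namespace Pool.Agent.Results.MP_0a407b_co.SharpCliqueCount

/-- Let `0 < α < 1`, `c > 0` and `η > 0`. If a graph `G` on `n ≥ N` vertices has `⌊cn²⌋` edges and
every set of `⌊αn⌋` vertices spans at least `(1-ε) α² c n²` edges, then the number of ordered
`k`-cliques of `G` is at least `((2c)^(k choose 2) (1 + a(X)³)^(k-2) - η) n^k` for every vertex set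
`X`, where `a(X) = |e(X) - c|X|²| / (cn²)`. For `X = ∅` it is the number expected in a random graph
of the same density. -/
theorem result :
    ∀ α : ℝ, 0 < α → α < 1 → ∀ c : ℝ, 0 < c → ∀ k : ℕ, ∀ η : ℝ, 0 < η →
      ∃ ε : ℝ, 0 < ε ∧ ∃ N : ℕ, ∀ n : ℕ, N ≤ n → ∀ G : SimpleGraph (Fin n),
        G.edgeSet.ncard = ⌊c * (n : ℝ) ^ 2⌋₊ →
        (∀ W : Finset (Fin n), W.card = ⌊α * (n : ℝ)⌋₊ →
          (1 - ε) * (α ^ 2 * c * (n : ℝ) ^ 2) ≤
            (({e : Sym2 (Fin n) | e ∈ G.edgeSet ∧ ∀ v ∈ e, v ∈ W}).ncard : ℝ)) →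
        ∀ X : Finset (Fin n),
          ((2 * c) ^ (k.choose 2) *
              (1 + (|(({e : Sym2 (Fin n) | e ∈ G.edgeSet ∧ ∀ v ∈ e, v ∈ X}).ncard : ℝ) -
                c * (X.card : ℝ) ^ 2| / (c * (n : ℝ) ^ 2)) ^ 3) ^ (k - 2) - η) * (n : ℝ) ^ k ≤
            (k.factorial : ℝ) * (({s : Finset (Fin n) | G.IsNClique k s}).ncard : ℝ) :=
  fun α hα0 hα1 c hc k η hη => Pool.Agent.H1.UH.sharp α hα0 hα1 c hc k η hη

end Pool.Agent.Results.MP_0a407b_co.SharpCliqueCount
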